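import Pool.Agent.SqzC4.Local

/-!
# MP_ab90d5_an: squeezing function tending to one forces strict pseudoconvexity (`C^4` boundary)

The definitions are in `Pool/Agent/SqzC4/Statement.lean`.
-/

set_option autoImplicit false

open Metric Set Filter Topology SqzC4

namespace Pool.Agent.Results.MP_ab90d5_an.SqueezingC4

/-- Let `Ω ⊂ ℂⁿ` be a bounded pseudoconvex domain with `C^4` boundary and `p ∈ ∂Ω`. Suppose that
no non-constant holomorphic disc in `∂Ω` passes through `p` and `S_Ω(z) → 1` as `z → p`, or that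
`S_Ω(z) → 1` as `z → q` for all `q ∈ ∂Ω` through which no non-constant holomorphic disc in `∂Ω`
passes. Then `Ω` is strictly pseudoconvex at `p`. -/
theorem result (n : ℕ) (Ω : Set (E n)) (hopen : IsOpen Ω) (hconn : IsConnected Ω)
    (hbdd : Bornology.IsBounded Ω) (hC4 : BoundaryOfClass 4 Ω)
    (hpsc : ∀ q ∈ frontier Ω, PseudoconvexAt Ω q) (p : E n) (hp : p ∈ frontier Ω)
    (hS : (NoDisc Ω p ∧ Tendsto (squeezing Ω) (𝓝[Ω] p) (𝓝 1)) ∨
      ∀ q ∈ frontier Ω, NoDisc Ω q → Tendsto (squeezing Ω) (𝓝[Ω] q) (𝓝 1)) :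
    StrictlyPseudoconvexAt Ω p :=
  SqzC4.main hopen hconn hbdd hC4 hpsc p hp hS

end Pool.Agent.Results.MP_ab90d5_an.SqueezingC4
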